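import Mathlib

/-!
# Equal-degree vertices joined by a path of length three

Every graph with `2n+1` vertices (`n ≥ 2`) and at least `n^2+n+1` edges contains two distinct
vertices of equal degree that are joined by a path of length three.
-/

set_option autoImplicit false

open Finset

namespace Pool.Agent.Results.MP_b875bc_co.EqualDegreePath

variable {V : Type*} [Fintype V]

section Lemmas

variable [DecidableEq V] (G : SimpleGraph V) [DecidableRel G.Adj]

/-- No two distinct vertices of equal degree are joined by a path of length three. -/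
def NoPath : Prop :=
  ∀ x x' y z : V, x ≠ x' → G.degree x = G.degree x' → G.Adj x y → G.Adj y z → G.Adj z x' →
    y ≠ x' → z ≠ x → False

variable {G}

theorem claim_one (h : NoPath G) {x x' y : V} (hne : x ≠ x') (hd : G.degree x = G.degree x')
    (hna : ¬ G.Adj x x') (hy : G.Adj x y) : G.degree y + G.degree x ≤ Fintype.card V := by
  have hdisj : Disjoint (G.neighborFinset y) (G.neighborFinset x') := by
    rw [Finset.disjoint_left]
    intro z hz hz'
    rw [SimpleGraph.mem_neighborFinset] at hz hz'
    refine h x x' y z hne hd hy hz hz'.symm ?_ ?_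
    · rintro rfl; exact hna hy
    · rintro rfl; exact hna hz'.symm
  have h1 := Finset.card_union_of_disjoint hdisj
  have h2 := Finset.card_le_univ (G.neighborFinset y ∪ G.neighborFinset x')
  rw [h1, SimpleGraph.card_neighborFinset_eq_degree, SimpleGraph.card_neighborFinset_eq_degree]
    at h2
  omega

theorem claim_two (h : NoPath G) {x x' y : V} (hne : x ≠ x') (hd : G.degree x = G.degree x')
    (hy : G.Adj x y) (hyx : y ≠ x') : G.degree y + G.degree x ≤ Fintype.card V + 1 := by
  have hsub : G.neighborFinset y ∩ G.neighborFinset x' ⊆ {x} := by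
    intro z hz
    rw [Finset.mem_inter, SimpleGraph.mem_neighborFinset, SimpleGraph.mem_neighborFinset] at hz
    rw [Finset.mem_singleton]
    by_contra hzx
    exact h x x' y z hne hd hy hz.1 hz.2.symm hyx hzx
  have h1 := Finset.card_union_add_card_inter (G.neighborFinset y) (G.neighborFinset x')
  have h2 := Finset.card_le_univ (G.neighborFinset y ∪ G.neighborFinset x')
  have h3 := Finset.card_le_card hsub
  rw [SimpleGraph.card_neighborFinset_eq_degree, SimpleGraph.card_neighborFinset_eq_degree] at h1
  rw [Finset.card_singleton] at h3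
  omega

theorem claim_three (h : NoPath G) {x x' : V} (hne : x ≠ x') (hd : G.degree x = G.degree x')
    (hadj : G.Adj x x') : 2 * G.degree x ≤ Fintype.card V + 1 := by
  set A := G.neighborFinset x with hA
  set B := G.neighborFinset x' with hB
  have h1 := Finset.card_union_add_card_inter A B
  have h2 := Finset.card_le_univ (A ∪ B)
  have hcA : A.card = G.degree x := SimpleGraph.card_neighborFinset_eq_degree G x
  have hcB : B.card = G.degree x' := SimpleGraph.card_neighborFinset_eq_degree G x'
  -- degrees of the common neighbours
  have hinj : ∀ c ∈ A ∩ B, ∀ c' ∈ A ∩ B, G.degree c = G.degree c' → c = c' := by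
    intro c hc c' hc' hcc
    rw [Finset.mem_inter, SimpleGraph.mem_neighborFinset, SimpleGraph.mem_neighborFinset] at hc hc'
    by_contra hne'
    exact h c c' x x' hne' hcc hc.1.symm hadj hc'.2 hc'.1.ne hc.2.ne
  have hup : ∀ c ∈ A ∩ B, G.degree c + (A ∪ B).card ≤ Fintype.card V + 2 := by
    intro c hc
    rw [Finset.mem_inter, SimpleGraph.mem_neighborFinset, SimpleGraph.mem_neighborFinset] at hc
    have hsub : G.neighborFinset c ∩ (A ∪ B) ⊆ {x, x'} := by
      intro z hz
      rw [Finset.mem_inter, Finset.mem_union, SimpleGraph.mem_neighborFinset,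
        SimpleGraph.mem_neighborFinset, SimpleGraph.mem_neighborFinset] at hz
      rw [Finset.mem_insert, Finset.mem_singleton]
      by_contra hcon
      push Not at hcon
      rcases hz.2 with hz2 | hz2
      · exact h x' x c z hne.symm hd.symm hc.2 hz.1 hz2.symm hc.1.ne' hcon.2
      · exact h x x' c z hne hd hc.1 hz.1 hz2.symm hc.2.ne' hcon.1
    have h3 := Finset.card_union_add_card_inter (G.neighborFinset c) (A ∪ B)
    have h4 := Finset.card_le_univ (G.neighborFinset c ∪ (A ∪ B))
    have h5 := (Finset.card_le_card hsub).trans Finset.card_le_two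
    rw [SimpleGraph.card_neighborFinset_eq_degree] at h3
    omega
  have hlow : ∀ c ∈ A ∩ B, 2 ≤ G.degree c := by
    intro c hc
    rw [Finset.mem_inter, SimpleGraph.mem_neighborFinset, SimpleGraph.mem_neighborFinset] at hc
    rw [← SimpleGraph.card_neighborFinset_eq_degree, ← Finset.card_pair hne]
    apply Finset.card_le_card
    intro z hz
    rw [Finset.mem_insert, Finset.mem_singleton] at hz
    rw [SimpleGraph.mem_neighborFinset]
    rcases hz with rfl | rfl
    · exact hc.1.symm
    · exact hc.2.symm
  by_cases hemp : (A ∩ B).Nonempty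
  · have himg : (A ∩ B).image (fun c => G.degree c) ⊆ Finset.Icc 2 (Fintype.card V + 2 - (A ∪ B).card) := by
      intro k hk
      rw [Finset.mem_image] at hk
      obtain ⟨c, hc, rfl⟩ := hk
      rw [Finset.mem_Icc]
      exact ⟨hlow c hc, by have := hup c hc; omega⟩
    have h3 := Finset.card_le_card himg
    rw [Finset.card_image_of_injOn (by
      intro c hc c' hc' hcc
      exact hinj c (by exact_mod_cast hc) c' (by exact_mod_cast hc') hcc), Nat.card_Icc] at h3
    obtain ⟨c, hc⟩ := hemp
    have h4 := hup c hc
    have h5 := hlow c hc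
    omega
  · rw [Finset.not_nonempty_iff_eq_empty] at hemp
    rw [hemp, Finset.card_empty] at h1
    omega

end Lemmas

/-- `∑_{k ≤ D} (k - t)` with truncated subtraction. -/
theorem sum_trunc (D t : ℕ) : 2 * ∑ k ∈ range (D + 1), (k - t) = (D - t) * (D - t + 1) := by
  induction D with
  | zero => simp
  | succ D ih =>
    rw [Finset.sum_range_succ, Nat.mul_add, ih]
    rcases le_or_gt t D with h | h
    · obtain ⟨e, rfl⟩ := Nat.exists_eq_add_of_le h
      have h1 : t + e - t = e := by omega
      have h2 : t + e + 1 - t = e + 1 := by omega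
      rw [h1, h2]; ring
    · have h1 : D - t = 0 := by omega
      rcases Nat.lt_or_ge (D + 1) t with h' | h'
      · have h2 : D + 1 - t = 0 := by omega
        rw [h1, h2]
      · have h2 : D + 1 - t = 0 := by omega
        rw [h1, h2]

/-- `∑_{k ≤ a + m} (min k a - t)` with truncated subtraction. -/
theorem sum_min_trunc (a m t : ℕ) :
    2 * ∑ k ∈ range (a + m + 1), (min k a - t) = (a - t) * (a - t + 1) + 2 * m * (a - t) := by
  induction m with
  | zero =>
    rw [Nat.add_zero, ← sum_trunc a t]
    simp only [Nat.mul_zero, Nat.zero_mul, Nat.add_zero]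
    congr 1
    apply Finset.sum_congr rfl
    intro k hk
    rw [Finset.mem_range] at hk
    rw [min_eq_left (by omega)]
  | succ m ih =>
    rw [← Nat.add_assoc, Finset.sum_range_succ, Nat.mul_add, ih, min_eq_right (by omega)]
    ring

/-- A sum over a set on which `d` is injective is at most the sum over all values. -/
theorem sum_le_of_inj {V : Type*} (S : Finset V) (d : V → ℕ) (D : ℕ) (f : ℕ → ℕ)
    (hinj : ∀ v ∈ S, ∀ w ∈ S, d v = d w → v = w) (hD : ∀ v ∈ S, d v ≤ D) :
    ∑ v ∈ S, f (d v) ≤ ∑ k ∈ range (D + 1), f k := by
  classical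
  have h1 : ∑ v ∈ S, f (d v) = ∑ k ∈ S.image d, f k := by
    rw [Finset.sum_image]
    intro v hv w hw hvw
    exact hinj v (by exact_mod_cast hv) w (by exact_mod_cast hw) hvw
  rw [h1]
  apply Finset.sum_le_sum_of_subset
  intro k hk
  rw [Finset.mem_image] at hk
  obtain ⟨v, hv, rfl⟩ := hk
  rw [Finset.mem_range]
  have := hD v hv
  omega

theorem sum_const_le {V : Type*} (S T : Finset V) (f : V → ℕ) (c q : ℕ)
    (h0 : ∀ v ∈ S, v ∉ T → f v = 0) (hc : ∀ v ∈ S, f v ≤ c) (hq : T.card ≤ q) :
    ∑ v ∈ S, f v ≤ q * c := by
  classical
  have h1 : ∑ v ∈ S, f v = ∑ v ∈ S ∩ T, f v := by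
    symm
    apply Finset.sum_subset Finset.inter_subset_left
    intro v hv hv'
    apply h0 v hv
    intro hT
    exact hv' (Finset.mem_inter.2 ⟨hv, hT⟩)
  rw [h1]
  calc ∑ v ∈ S ∩ T, f v ≤ ∑ _v ∈ S ∩ T, c := by
        apply Finset.sum_le_sum
        intro v hv
        exact hc v (Finset.mem_inter.1 hv).1
    _ = (S ∩ T).card * c := by rw [Finset.sum_const, smul_eq_mul]
    _ ≤ q * c := by
        apply Nat.mul_le_mul_right
        exact (Finset.card_le_card Finset.inter_subset_right).trans hq

theorem arith_big (i g k S S1 S2a S2b S3 S4b : ℕ) (h1 : S1 ≤ (2 * (i + 2 + g + k) + 1) * (i + 2))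
    (h2a : S2a ≤ i * g) (h2b : 2 * S2b ≤ g * (g + 1) + 2 * (2 * k + 1 + g + 1) * g)
    (h3 : S3 ≤ (i + 2 + g) * (2 * k + 1)) (h4b : 2 * S4b ≤ (g + 1) * (g + 2))
    (hS : S = S1 + (S2a + S2b) + S3 + (0 + S4b)) :
    S < 2 * ((i + 2 + g + k) ^ 2 + (i + 2 + g + k) + 1) := by
  have e : 2 * (2 * ((i + 2 + g + k) ^ 2 + (i + 2 + g + k) + 1)) =
      2 * ((2 * (i + 2 + g + k) + 1) * (i + 2)) + 2 * (i * g) +
      (g * (g + 1) + 2 * (2 * k + 1 + g + 1) * g) + 2 * ((i + 2 + g) * (2 * k + 1)) +
      (g + 1) * (g + 2) + (4 * k ^ 2 + 4 * k + 2 + 2 * g * (i + 1)) := by ring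
  have hpos : 0 < 4 * k ^ 2 + 4 * k + 2 + 2 * g * (i + 1) := by positivity
  linarith

/-- The bound on the degree sum. -/
theorem degree_sum_lt [DecidableEq V] (G : SimpleGraph V) [DecidableRel G.Adj] (n : ℕ)
    (hn : 2 ≤ n) (hV : Fintype.card V = 2 * n + 1) (h : NoPath G) :
    ∑ v, G.degree v < 2 * (n ^ 2 + n + 1) := by
  classical
  by_contra hcon
  push Not at hcon
  have hne : Nonempty V := by
    rw [← Fintype.card_pos_iff, hV]; omega
  obtain ⟨u, hu⟩ := G.exists_maximal_degree_vertex
  have hmax : ∀ v, G.degree v ≤ G.degree u := fun v => hu ▸ G.degree_le_maxDegree v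
  have hult : G.degree u < 2 * n + 1 := hV ▸ G.degree_lt_card_verts u
  have hquad : ∀ a : ℕ, a ≤ 2 * n + 1 → a * (2 * n + 1 - a) ≤ n * (n + 1) := by
    intro a ha
    obtain ⟨b, hb⟩ := Nat.exists_eq_add_of_le ha
    have : 2 * n + 1 - a = b := by omega
    rw [this]
    rcases le_or_gt a n with h1 | h1
    · obtain ⟨c, rfl⟩ := Nat.exists_eq_add_of_le h1
      have : b = a + 2 * c + 1 := by omega
      subst this
      nlinarith
    · obtain ⟨c, rfl⟩ := Nat.exists_eq_add_of_lt h1
      have : n = b + c := by omega
      subst this
      nlinarith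
  rcases Nat.lt_or_ge (G.degree u) (n + 2) with hsmall | hbig
  · -- all degrees at most `n + 1`
    set M := univ.filter (fun v => G.degree v = n + 1) with hM
    have hsum : ∑ v, G.degree v ≤ n * (2 * n + 1) + M.card := by
      have h1 : ∑ v, G.degree v ≤ ∑ v : V, (n + if G.degree v = n + 1 then 1 else 0) := by
        apply Finset.sum_le_sum
        intro v _
        have := hmax v
        split_ifs <;> omega
      rw [Finset.sum_add_distrib, Finset.sum_const, Finset.card_univ, hV, smul_eq_mul,
        ← Finset.card_filter] at h1
      rw [Nat.mul_comm n]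
      exact h1
    have hMc : n + 2 ≤ M.card := by nlinarith
    by_cases hcl : ∃ x ∈ M, ∃ x' ∈ M, x ≠ x' ∧ ¬ G.Adj x x'
    · obtain ⟨x, hx, x', hx', hne', hna⟩ := hcl
      rw [hM, Finset.mem_filter] at hx hx'
      have hdisj : Disjoint M (G.neighborFinset x) := by
        rw [Finset.disjoint_left]
        intro y hy hy'
        rw [hM, Finset.mem_filter] at hy
        rw [SimpleGraph.mem_neighborFinset] at hy'
        have := claim_one h hne' (by rw [hx.2, hx'.2]) hna hy'
        omega
      have h1 := Finset.card_union_of_disjoint hdisj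
      have h2 := Finset.card_le_univ (M ∪ G.neighborFinset x)
      rw [h1, SimpleGraph.card_neighborFinset_eq_degree, hV] at h2
      omega
    · push Not at hcl
      have h4 : 4 ≤ M.card := by omega
      obtain ⟨T, hTM, hT⟩ := Finset.exists_subset_card_eq h4
      obtain ⟨a, b, c, d, hab, hac, had, hbc, hbd, hcd, hTe⟩ := Finset.card_eq_four.1 hT
      have ha : a ∈ M := hTM (by rw [hTe]; simp)
      have hb : b ∈ M := hTM (by rw [hTe]; simp)
      have hc : c ∈ M := hTM (by rw [hTe]; simp)
      have hd : d ∈ M := hTM (by rw [hTe]; simp)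
      have ea := (Finset.mem_filter.1 ha).2
      have eb := (Finset.mem_filter.1 hb).2
      exact h a b c d hab (by rw [ea, eb]) (hcl a ha c hc hac) (hcl c hc d hd hcd)
        (hcl d hd b hb (Ne.symm hbd)) (Ne.symm hbc) (Ne.symm had)
  · -- the maximum degree is large
    obtain ⟨j, hj⟩ : ∃ j, G.degree u + j = 2 * n + 1 := ⟨2 * n + 1 - G.degree u, by omega⟩
    have hj1 : 1 ≤ j := by omega
    have hjn : j + 1 ≤ n := by omega
    by_cases huniq : ∃ u', u' ≠ u ∧ G.degree u' = G.degree u
    · -- the maximum degree is repeated
      obtain ⟨u', hu'ne, hu'⟩ := huniq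
      have hna : ¬ G.Adj u u' := by
        intro hadj
        have := claim_three h (Ne.symm hu'ne) hu'.symm hadj
        omega
      have hsum : ∑ v, G.degree v ≤ 2 * (j * (2 * n + 1 - j)) := by
        have h1 : ∑ v, G.degree v ≤
            ∑ v : V, (if v ∈ G.neighborFinset u then j else G.degree u) := by
          apply Finset.sum_le_sum
          intro v _
          split_ifs with hv
          · rw [SimpleGraph.mem_neighborFinset] at hv
            have := claim_one h (Ne.symm hu'ne) hu'.symm hna hv
            omega
          · exact hmax v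
        rw [Finset.sum_ite, Finset.sum_const, Finset.sum_const, smul_eq_mul, smul_eq_mul,
          Finset.filter_mem_eq_inter, Finset.univ_inter] at h1
        have h2 : (univ.filter (fun v => ¬ v ∈ G.neighborFinset u)).card = j := by
          have h3 := Finset.card_filter_add_card_filter_not (s := (univ : Finset V))
            (fun v => v ∈ G.neighborFinset u)
          rw [Finset.filter_mem_eq_inter, Finset.univ_inter,
            SimpleGraph.card_neighborFinset_eq_degree, Finset.card_univ, hV] at h3
          omega
        rw [h2, SimpleGraph.card_neighborFinset_eq_degree] at h1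
        have h4 : 2 * n + 1 - j = G.degree u := by omega
        rw [h4]
        linarith [Nat.mul_comm (G.degree u) j]
      have := hquad j (by omega)
      nlinarith
    · push Not at huniq
      set R := univ.filter (fun v => ∃ w, w ≠ v ∧ G.degree w = G.degree v) with hR
      have hRmem : ∀ v, v ∈ R ↔ ∃ w, w ≠ v ∧ G.degree w = G.degree v := by
        intro v; rw [hR, Finset.mem_filter]; simp
      have huR : u ∉ R := by
        rw [hRmem]
        rintro ⟨w, hw, hw'⟩
        exact huniq w hw hw'
      have hinj : ∀ v ∈ Rᶜ, ∀ w ∈ Rᶜ, G.degree v = G.degree w → v = w := by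
        intro v hv w _ hvw
        rw [Finset.mem_compl, hRmem] at hv
        push Not at hv
        by_contra hne'
        exact hv w (Ne.symm hne') hvw.symm
      -- repeated vertices adjacent to `u` have small degree
      have hRu : ∀ v ∈ R, G.Adj v u → G.degree v ≤ j + 1 := by
        intro v hv hadj
        obtain ⟨w, hw, hw'⟩ := (hRmem v).1 hv
        have huw : u ≠ w := by
          rintro rfl
          exact huniq v (Ne.symm hw) hw'.symm
        have := claim_two h (Ne.symm hw) hw'.symm hadj huw
        omega
      set Q := univ.filter (fun v => v ≠ u ∧ ¬ G.Adj v u) with hQ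
      have hQc : Q.card ≤ j - 1 := by
        have hdisj : Disjoint Q (insert u (G.neighborFinset u)) := by
          rw [Finset.disjoint_left]
          intro v hv hv'
          rw [hQ, Finset.mem_filter] at hv
          rw [Finset.mem_insert, SimpleGraph.mem_neighborFinset] at hv'
          rcases hv' with rfl | hv'
          · exact hv.2.1 rfl
          · exact hv.2.2 hv'.symm
        have h1 := Finset.card_union_of_disjoint hdisj
        have h2 := Finset.card_le_univ (Q ∪ insert u (G.neighborFinset u))
        rw [h1, Finset.card_insert_of_notMem (by simp), SimpleGraph.card_neighborFinset_eq_degree,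
          hV] at h2
        omega
      have hRQ : ∀ v ∈ R, v ∉ Q → G.degree v ≤ j + 1 := by
        intro v hv hvQ
        apply hRu v hv
        by_contra hna
        apply hvQ
        rw [hQ, Finset.mem_filter]
        refine ⟨Finset.mem_univ _, ?_, hna⟩
        rintro rfl
        exact huR hv
      by_cases hcase : ∃ v ∈ R, n + 2 ≤ G.degree v
      · -- a large repeated degree
        obtain ⟨v0, hv0, hv0d⟩ := hcase
        obtain ⟨x, hxR, hxmax⟩ := Finset.exists_max_image R (fun v => G.degree v) ⟨v0, hv0⟩
        have hxbig : n + 2 ≤ G.degree x := hv0d.trans (hxmax v0 hv0)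
        obtain ⟨x', hx'ne, hx'⟩ := (hRmem x).1 hxR
        have hna : ¬ G.Adj x x' := by
          intro hadj
          have := claim_three h (Ne.symm hx'ne) hx'.symm hadj
          omega
        have hxu : G.degree x < G.degree u := by
          rcases lt_or_eq_of_le (hmax x) with h1 | h1
          · exact h1
          · exfalso
            by_cases hxu' : x = u
            · exact huR (hxu' ▸ hxR)
            · exact huniq x hxu' h1
        obtain ⟨g, hg⟩ : ∃ g, G.degree x + (j + 1 + g) = 2 * n + 1 :=
          ⟨2 * n + 1 - G.degree x - (j + 1), by omega⟩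
        set a := j + 1 + g with ha
        have han : a + 1 ≤ n := by omega
        -- vertices of degree more than `a`
        set Hi := univ.filter (fun v => ¬ G.Adj x v) with hHi
        have hHic : Hi.card ≤ a := by
          have hdisj : Disjoint Hi (G.neighborFinset x) := by
            rw [Finset.disjoint_left]
            intro v hv hv'
            rw [hHi, Finset.mem_filter] at hv
            rw [SimpleGraph.mem_neighborFinset] at hv'
            exact hv.2 hv'
          have h1 := Finset.card_union_of_disjoint hdisj
          have h2 := Finset.card_le_univ (Hi ∪ G.neighborFinset x)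
          rw [h1, SimpleGraph.card_neighborFinset_eq_degree, hV] at h2
          omega
        have hlow : ∀ v, v ∉ Hi → G.degree v ≤ a := by
          intro v hv
          rw [hHi, Finset.mem_filter] at hv
          have hv' : G.Adj x v := by
            by_contra hna'
            exact hv ⟨Finset.mem_univ _, hna'⟩
          have := claim_one h (Ne.symm hx'ne) hx'.symm hna hv'
          omega
        have hdecomp : ∀ v, G.degree v = (j + 1) ⊓ G.degree v +
            (min (G.degree v) a - (j + 1)) + (min (G.degree v) (G.degree x) - a) +
            (G.degree v - G.degree x) := by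
          intro v
          simp only [min_def]
          split_ifs <;> omega
        have hs1 : ∑ v, ((j + 1) ⊓ G.degree v) ≤ (2 * n + 1) * (j + 1) := by
          calc ∑ v, ((j + 1) ⊓ G.degree v) ≤ ∑ _v : V, (j + 1) :=
                Finset.sum_le_sum (fun v _ => inf_le_left)
            _ = (2 * n + 1) * (j + 1) := by
                rw [Finset.sum_const, Finset.card_univ, hV, smul_eq_mul]
        have hs2a : ∑ v ∈ R, (min (G.degree v) a - (j + 1)) ≤ (j - 1) * g := by
          apply sum_const_le R Q _ g (j - 1) _ _ hQc
          · intro v hv hvQ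
            have := hRQ v hv hvQ
            have h1 : min (G.degree v) a ≤ G.degree v := min_le_left _ _
            omega
          · intro v _
            have h1 : min (G.degree v) a ≤ a := min_le_right _ _
            omega
        have hs2b : 2 * ∑ v ∈ Rᶜ, (min (G.degree v) a - (j + 1)) ≤
            g * (g + 1) + 2 * (G.degree u - a) * g := by
          have h1 := sum_le_of_inj Rᶜ (fun v => G.degree v) (a + (G.degree u - a))
            (fun k => min k a - (j + 1)) hinj (by
              intro v _
              have := hmax v
              omega)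
          have h2 := sum_min_trunc a (G.degree u - a) (j + 1)
          have h3 : a - (j + 1) = g := by omega
          rw [h3] at h2
          rw [← h2]
          exact Nat.mul_le_mul_left 2 h1
        have hs3 : ∑ v, (min (G.degree v) (G.degree x) - a) ≤ a * (G.degree x - a) := by
          apply sum_const_le univ Hi _ (G.degree x - a) a _ _ hHic
          · intro v _ hv
            have := hlow v hv
            have h1 : min (G.degree v) (G.degree x) ≤ G.degree v := min_le_left _ _
            omega
          · intro v _
            have h1 : min (G.degree v) (G.degree x) ≤ G.degree x := min_le_right _ _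
            omega
        have hs4a : ∑ v ∈ R, (G.degree v - G.degree x) = 0 := by
          apply Finset.sum_eq_zero
          intro v hv
          have : G.degree v ≤ G.degree x := hxmax v hv
          omega
        have hs4b : 2 * ∑ v ∈ Rᶜ, (G.degree v - G.degree x) ≤ (g + 1) * (g + 2) := by
          have h1 := sum_le_of_inj Rᶜ (fun v => G.degree v) (G.degree u)
            (fun k => k - G.degree x) hinj (fun v _ => hmax v)
          have h2 := sum_trunc (G.degree u) (G.degree x)
          have h3 : G.degree u - G.degree x = g + 1 := by omega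
          rw [h3] at h2
          rw [← h2]
          exact Nat.mul_le_mul_left 2 h1
        have hs2 := Finset.sum_add_sum_compl R (fun v => (min (G.degree v) a - (j + 1)))
        have hs4 := Finset.sum_add_sum_compl R (fun v => (G.degree v - G.degree x))
        have htot : ∑ v, G.degree v = ∑ v, ((j + 1) ⊓ G.degree v) +
            ∑ v, (min (G.degree v) a - (j + 1)) +
            ∑ v, (min (G.degree v) (G.degree x) - a) + ∑ v, (G.degree v - G.degree x) := by
          rw [← Finset.sum_add_distrib, ← Finset.sum_add_distrib, ← Finset.sum_add_distrib]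
          exact Finset.sum_congr rfl (fun v _ => hdecomp v)
        -- arithmetic
        have hxe : G.degree x = 2 * n + 1 - a := by omega
        have hue : G.degree u = 2 * n + 1 - j := by omega
        obtain ⟨k, hk⟩ : ∃ k, n = a + k := ⟨n - a, by omega⟩
        obtain ⟨i, hi⟩ : ∃ i, j = i + 1 := ⟨j - 1, by omega⟩
        have e1 : G.degree x - a = 2 * k + 1 := by omega
        have e2 : G.degree u - a = 2 * k + 1 + g + 1 := by omega
        have e3 : j - 1 = i := by omega
        rw [e1] at hs3
        rw [e2] at hs2b
        rw [e3] at hs2a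
        generalize hS : ∑ v, G.degree v = S at *
        generalize ∑ v, ((j + 1) ⊓ G.degree v) = S1 at *
        generalize ∑ v ∈ R, (min (G.degree v) a - (j + 1)) = S2a at *
        generalize ∑ v ∈ Rᶜ, (min (G.degree v) a - (j + 1)) = S2b at *
        generalize ∑ v, (min (G.degree v) a - (j + 1)) = S2 at *
        generalize ∑ v, (min (G.degree v) (G.degree x) - a) = S3 at *
        generalize ∑ v ∈ R, (G.degree v - G.degree x) = S4a at *
        generalize ∑ v ∈ Rᶜ, (G.degree v - G.degree x) = S4b at *
        generalize ∑ v, (G.degree v - G.degree x) = S4 at *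
        have hae : a = i + 2 + g := by omega
        have hne' : n = i + 2 + g + k := by omega
        rw [hne'] at hcon hs1
        rw [hi] at hs1
        rw [hae] at hs3
        rw [hs4a] at hs4
        have hfin := arith_big i g k S S1 S2a S2b S3 S4b hs1 hs2a hs2b hs3 hs4b
          (by rw [htot, ← hs2, ← hs4])
        omega
      · -- all repeated degrees are at most `n + 1`
        push Not at hcase
        have hdecomp : ∀ v, G.degree v ≤ (j + 1) + (G.degree v - (j + 1)) := by
          intro v; omega
        have hs2a : ∑ v ∈ R, (G.degree v - (j + 1)) ≤ (j - 1) * (n - j) := by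
          apply sum_const_le R Q _ (n - j) (j - 1) _ _ hQc
          · intro v hv hvQ
            have := hRQ v hv hvQ
            omega
          · intro v hv
            have := hcase v hv
            omega
        have hs2b : 2 * ∑ v ∈ Rᶜ, (G.degree v - (j + 1)) ≤
            (G.degree u - (j + 1)) * (G.degree u - (j + 1) + 1) := by
          have h1 := sum_le_of_inj Rᶜ (fun v => G.degree v) (G.degree u)
            (fun k => k - (j + 1)) hinj (fun v _ => hmax v)
          rw [← sum_trunc (G.degree u) (j + 1)]
          exact Nat.mul_le_mul_left 2 h1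
        have hs2 := Finset.sum_add_sum_compl R (fun v => (G.degree v - (j + 1)))
        have htot : ∑ v, G.degree v ≤ (2 * n + 1) * (j + 1) + ∑ v, (G.degree v - (j + 1)) := by
          calc ∑ v, G.degree v ≤ ∑ v, ((j + 1) + (G.degree v - (j + 1))) :=
                Finset.sum_le_sum (fun v _ => hdecomp v)
            _ = (2 * n + 1) * (j + 1) + ∑ v, (G.degree v - (j + 1)) := by
                rw [Finset.sum_add_distrib, Finset.sum_const, Finset.card_univ, hV, smul_eq_mul]
        obtain ⟨k, hk⟩ : ∃ k, n = j + 1 + k := ⟨n - (j + 1), by omega⟩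
        obtain ⟨i, hi⟩ : ∃ i, j = i + 1 := ⟨j - 1, by omega⟩
        have e1 : n - j = k + 1 := by omega
        have e2 : G.degree u - (j + 1) = 2 * k + 2 := by omega
        have e3 : j - 1 = i := by omega
        rw [e1, e3] at hs2a
        rw [e2] at hs2b
        generalize hS : ∑ v, G.degree v = S at *
        generalize ∑ v ∈ R, (G.degree v - (j + 1)) = S2a at *
        generalize ∑ v ∈ Rᶜ, (G.degree v - (j + 1)) = S2b at *
        generalize ∑ v, (G.degree v - (j + 1)) = S2 at *
        rw [hk, hi] at hcon htot
        nlinarith

/-- For `n ≥ 2`, every graph with `2n+1` vertices and at least `n^2+n+1` edges (in particular every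
one with exactly that many edges) contains two distinct vertices of equal degree that are joined by
a path of length three. -/
theorem result (n : ℕ) (hn : 2 ≤ n) (V : Type*) [Fintype V] (G : SimpleGraph V)
    [DecidableRel G.Adj] (hV : Fintype.card V = 2 * n + 1)
    (hE : n ^ 2 + n + 1 ≤ G.edgeFinset.card) :
    ∃ x₁ x₂ : V, x₁ ≠ x₂ ∧ G.degree x₁ = G.degree x₂ ∧
      ∃ p : G.Walk x₁ x₂, p.IsPath ∧ p.length = 3 := by
  classical
  by_contra hcon
  push Not at hcon
  have h : NoPath G := by
    intro x x' y z hne hd hxy hyz hzx' hyx' hzx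
    refine hcon x x' hne hd (.cons hxy (.cons hyz (.cons hzx' .nil))) ?_ rfl
    simp only [SimpleGraph.Walk.cons_isPath_iff, SimpleGraph.Walk.support_cons,
      SimpleGraph.Walk.support_nil, List.mem_cons, List.not_mem_nil, or_false, not_or]
    exact ⟨⟨⟨SimpleGraph.Walk.IsPath.nil, hzx'.ne⟩, hyz.ne, hyx'⟩, hxy.ne, Ne.symm hzx, hne⟩
  have h1 := degree_sum_lt G n hn hV h
  have h2 := G.sum_degrees_eq_twice_card_edges
  omega

end Pool.Agent.Results.MP_b875bc_co.EqualDegreePath
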